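import Pool.Agent.R571.PC.UC

/-!
MP_a7a5c5_an, Q2: every separable super-reflexive normed space has simultaneous packing and
covering constant `< 2`.
-/

namespace Pool.Agent.Results.MP_a7a5c5_an.NoSeparableSuperReflexive

open Pool.Agent.R571.PC

theorem result (X : Type*) [NormedAddCommGroup X] [NormedSpace ℝ X]
    [TopologicalSpace.SeparableSpace X]
    (h : HasEquivUCNorm (UniformSpace.Completion X)) : gamma X < 2 :=
  gamma_lt_two (signs_of_ucnorm (ucnorm_of_completion h))

end Pool.Agent.Results.MP_a7a5c5_an.NoSeparableSuperReflexive
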